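import Pool.Agent.Helper86.UQ.St5

/-!
# Project UQ, module SPE: the special edge
-/

set_option autoImplicit false

open Finset

namespace Pool.Agent.Helper7.UQ

open Classical Pool.Agent.Helper30.RCU Pool.Agent.Helper1.UQ Pool.Agent.Helper86.UQ

universe u

/-- **SPE**. -/
theorem hSPE (h : StAMN.{u}) : StSPE.{u} := by
  intro V G hlf htr ham p p' t q γ hp' hpp hp1 ht ht1 hq hγ o hsum hlog
  have A := h V G hlf htr ham p p' t q hp' hpp hp1 ht.le ht1 hq o
  rw [hlog] at A
  have hτ : 0 < -Real.log (1 - t) := by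
    have := Real.log_neg (x := 1 - t) (by linarith) (by linarith)
    linarith
  have hL : 0 < 4 / γ * (-Real.log (1 - t)) := mul_pos (div_pos four_pos hγ) hτ
  have B : ∑ e ∈ te G {o}, h8 G p' t q e ≤ ∑ e ∈ te G {o}, f8 G p q e + γ / 2 := by
    refine le_of_mul_le_mul_left ?_ hL
    refine A.trans (le_of_eq ?_)
    field_simp
    ring
  by_contra hcon
  push Not at hcon
  have hne : (te G {o}).Nonempty := by
    rw [Finset.nonempty_iff_ne_empty]
    intro h0
    rw [h0] at hsum
    simp only [Finset.sum_empty] at hsum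
    linarith
  have hm : (0 : ℝ) < ((te G {o}).card : ℝ) := by
    exact_mod_cast Finset.card_pos.mpr hne
  have C := Finset.sum_lt_sum_of_nonempty hne hcon
  rw [Finset.sum_sub_distrib, Finset.sum_const, nsmul_eq_mul] at C
  have D : ((te G {o}).card : ℝ) * (γ / (2 * ((te G {o}).card : ℝ))) = γ / 2 := by
    field_simp
  rw [D] at C
  linarith

end Pool.Agent.Helper7.UQ
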